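import Pool.Agent.H29.DW.All
import Pool.Agent.H31.SW.TargetsA
import Pool.Agent.H56.SWL.IB
import Pool.Agent.H49.SWL.N1
import Pool.Agent.H59.SWL.NS
import Pool.Agent.H77.SW.UD
import Pool.Agent.H64.SWL.HU
import Pool.Agent.H70.SWL.OI
import Pool.Agent.H77.SW.SB
import Pool.Agent.H33.SWL.D3
import Pool.Agent.H95.SWL.GL
import Pool.Agent.H77.SW.GB
import Pool.Agent.H42.SWL.GP
import Pool.Agent.H52.SWL.AD
import Pool.Agent.H33.SWL.AB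
import Pool.Agent.H52.SWL.FD
import Pool.Agent.H60.SWL.OU
import Pool.Agent.H70.SWL.BU
import Pool.Agent.H1.SWL.DE
import Pool.Agent.H86.SWL.L1
import Pool.Agent.H68.SWL.L3
import Pool.Agent.H20.SWL.NB
import Pool.Agent.H20.SWL.CU
import Pool.Agent.H54.SWL.CL
import Pool.Agent.H1.SWL.WS
import Pool.Agent.H20.SWL.DY
import Pool.Agent.H60.SWL.WD
import Pool.Agent.H68.SWL.TD
import Pool.Agent.H69.SWL.PO
import Pool.Agent.H68.SWL.P3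
import Pool.Agent.H63.SW.NG
import Pool.Agent.H63.SWL.GD
import Pool.Agent.H34.SWL.PE
import Pool.Agent.H13.SWL.SX
import Pool.Agent.H69.SWL.SD
import Pool.Agent.H54.SWL.NM
import Pool.Agent.H63.SWL.ME
import Pool.Agent.H70.SWL.UP
import Pool.Agent.H3.SWL.UQ
import Pool.Agent.H64.SWL.WL
import Pool.Agent.H3.SWL.MS
import Pool.Agent.H95.SWL.IN
import Pool.Agent.H34.SWL.RS
import Pool.Agent.H90.SWL.BI
import Pool.Agent.H2.SWL.BP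
import Pool.Agent.H89.SWL.BQ
import Pool.Agent.H31.SWL.SW

/-!
# The sub-Weyl bound: assembly
-/

set_option autoImplicit false

open NumberField NumberField.InfinitePlace Complex

namespace Pool.Agent.H31.SWL.All

open Pool.Agent.H31.SW Pool.Agent.H29.DW.Base
open Pool.Agent.H29.DW.All (d_PG d_AE d_GH)
open Pool.Agent.H29.THC.Base (c_TH c_YC c_DU c_RX c_PU c_RR c_SY)
open Pool.Agent.H29.THC.All (a_HR)

theorem w_IB : W_IB := Pool.Agent.H56.SWL.pf_IB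
theorem w_N1 : W_N1 := Pool.Agent.H49.SWL.pf_N1 w_IB
theorem w_NS : W_NS := Pool.Agent.H59.SWL.pf_NS w_N1
theorem w_UD : W_UD := Pool.Agent.H31.SW.pf_UD
theorem w_HU : W_HU := Pool.Agent.H64.SWL.pf_HU w_UD
theorem w_OI : W_OI := Pool.Agent.H70.SWL.pf_OI w_NS
theorem w_SB : W_SB := Pool.Agent.H31.SW.pf_SB
theorem w_D3 : W_D3 := Pool.Agent.H33.SWL.D3.pf_D3
theorem w_GL : W_GL := Pool.Agent.H95.SWL.pf_GL w_UD
theorem w_GB : W_GB := Pool.Agent.H31.SW.pf_GB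
theorem w_GP : W_GP := Pool.Agent.H42.SWL.pf_GP
theorem w_AD : W_AD := Pool.Agent.H52.SWL.pf_AD w_IB w_HU w_UD
theorem w_AB : W_AB := Pool.Agent.H33.SWL.AB.pf_AB w_OI w_HU w_GB w_GL w_AD
theorem w_FD : W_FD := Pool.Agent.H52.SWL.pf_FD
theorem w_OU : W_OU := Pool.Agent.H60.SWL.pf_OU w_NS w_HU
theorem w_BU : W_BU := Pool.Agent.H70.SWL.pf_BU
theorem w_DE : W_DE := Pool.Agent.H1.SWL.pf_DE w_AB w_GP w_FD w_OU w_BU w_HU
theorem w_L1 : W_L1 := Pool.Agent.H86.SWL.pf_L1 w_NS w_OI w_SB w_HU w_UD w_D3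
theorem w_L3 : W_L3 := Pool.Agent.H68.SWL.pf_L3 w_L1 w_NS
theorem w_NB : W_NB := Pool.Agent.H20.SWL.pf_NB
theorem w_CU : W_CU := Pool.Agent.H20.SWL.pf_CU
theorem w_CL : W_CL := Pool.Agent.H54.SWL.pf_CL w_CU
theorem w_WS : W_WS := Pool.Agent.H1.SWL.pf_WS w_CU
theorem w_DY : W_DY := Pool.Agent.H20.SWL.pf_DY
theorem w_WD : W_WD := Pool.Agent.H60.SWL.pf_WD
theorem w_TD : W_TD := Pool.Agent.H68.SWL.pf_TD w_WD
theorem w_PO : W_PO := Pool.Agent.H69.SWL.pf_PO d_PG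
theorem w_P3 : W_P3 := Pool.Agent.H68.SWL.pf_P3 w_L3 w_WS w_PO w_HU c_DU
theorem w_NG : W_NG := Pool.Agent.H63.SW.NG.pf_NG
theorem w_GD : W_GD := Pool.Agent.H63.SWL.GD.pf_GD w_CU w_CL w_DY w_TD w_P3 w_NG
theorem w_PE : W_PE := Pool.Agent.H34.SWL.pf_PE
theorem w_SX : W_SX := Pool.Agent.H13.SWL.pf_SX w_PE w_CU
theorem w_SD : W_SD := Pool.Agent.H69.SWL.pf_SD w_DE w_PO w_GD w_SX w_PE
theorem w_NM : W_NM := Pool.Agent.H54.SWL.pf_NM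
theorem w_ME : W_ME := Pool.Agent.H63.SWL.ME.pf_ME w_CU w_CL w_DY w_NB w_WD w_SD w_NM
theorem w_UP : W_UP := Pool.Agent.H70.SWL.pf_UP u_CG u_AG c_PU
theorem w_UQ : W_UQ := Pool.Agent.H3.SWL.pf_UQ u_DC u_AG c_PU
theorem w_WL : W_WL := Pool.Agent.H64.SWL.pf_WL c_PU u_VL
theorem w_MS : W_MS := Pool.Agent.H3.SWL.pf_MS c_TH c_YC c_FD
theorem w_IN : W_IN := Pool.Agent.H95.SWL.pf_IN c_TH c_YC
theorem w_RS : W_RS := Pool.Agent.H34.SWL.pf_RS w_CU w_ME c_RX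
theorem w_BI : W_BI := Pool.Agent.H90.SWL.pf_BI w_RS w_IN w_MS c_RR c_YC c_FD
theorem w_BP : W_BP := Pool.Agent.H2.SWL.pf_BP w_UP w_WL w_BI u_CG c_SY
theorem w_BQ : W_BQ := Pool.Agent.H89.SWL.pf_BQ w_UQ w_WL w_BI u_CG c_RX c_RR
theorem w_SW : W_SW := Pool.Agent.H31.SWL.pf_SW w_BP w_BQ d_AE d_GH u_FK a_HR c_SY Pool.Agent.H63.HK.ds u_DC u_GE

end Pool.Agent.H31.SWL.All
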